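import Mathlib
import Pool.Agent.H141Z.Gor.Defs
import Pool.Agent.H141Z.Gor.Final

/-!
Over every algebraically closed field there is a local Artinian Gorenstein quotient of
`k[[x,y,z]]` outside the closure of the complete intersection locus of the punctual Hilbert scheme.
-/

set_option autoImplicit false

namespace Pool.Agent.Results.MP_48d439_ag.GorNotLimitCI

universe u

open Pool.Agent.H141Z.Gor

theorem result (k : Type u) [Field k] [IsAlgClosed k] :
    ∃ I : Ideal (MvPowerSeries (Fin 3) k), IsArtinGorenstein I ∧
      ¬ InClosureCI (Module.finrank k (MvPowerSeries (Fin 3) k ⧸ I)) I :=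
  exists_not_closure k

end Pool.Agent.Results.MP_48d439_ag.GorNotLimitCI
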